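import Pool.Agent.Lib.MP_7629b0_nt.RES
import Pool.Agent.Lib.MP_7629b0_nt.FIN
import Pool.Agent.Lib.MP_7629b0_nt.MacMahon

/-!
# MP_7629b0_nt: plane partition numbers are almost never perfect powers

For all `Y ≤ X` the interval `[X, X + Y]` contains at most `C (X^{2/3} + Y X^{-10^{-10}})` integers
`n` for which the number of plane partitions of `n` (arrays as in the frozen statement S17455)
is a perfect power.
-/

namespace Pool.Agent.Results.MP_7629b0_nt.AlmostNeverPower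

open Pool.Agent.MP7629b0

theorem _root_.Pool.Agent.Results.MP_7629b0_nt.AlmostNeverPower.result :
    ∃ C : ℝ, ∀ X Y : ℕ, 1 ≤ X → Y ≤ X →
      (Set.ncard {n : ℕ | X ≤ n ∧ n ≤ X + Y ∧ ∃ a b : ℕ, 1 < a ∧ 1 < b ∧
        Nat.card {f : Fin n → Fin n → Fin (n + 1) //
          (∀ i i' j j' : Fin n, i ≤ i' → j ≤ j' → f i' j' ≤ f i j) ∧
          ∑ i, ∑ j, (f i j).val = n} = a ^ b} : ℝ) ≤
        C * ((X : ℝ) ^ ((2 : ℝ) / 3) + Y * (X : ℝ) ^ (-(1 : ℝ) / 10 ^ 10)) := by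
  obtain ⟨C, hC⟩ := window
  obtain ⟨N0, hN0⟩ := Filter.eventually_atTop.1 hC
  have h := RES_main (fun n => ∃ a b : ℕ, 1 < a ∧ 1 < b ∧ pl n = a ^ b) C N0 hN0
  simpa only [Mac.macmahon] using h

end Pool.Agent.Results.MP_7629b0_nt.AlmostNeverPower
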